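import Pool.Agent.H667.LV.Fam

/-!
A distal dp-minimal structure with a definable downward directed family of nonempty sets of pairs
which does not extend to a definable type.

The structure: points `(l, x)` with `l` a natural number and `x` a sequence of `l` bits; on the
points of the level `l` only sums of an even number of points are visible. The family consists of
the sets `X_c` of pairs `(x, y)` on one level above the level of `c` such that `x + y` starts with
the bit 1. A definable type containing the family would give a definable branch.
-/

namespace Pool.Agent.Results.MP_6a1f82_lc.NotExtending

open FirstOrder FirstOrder.Language Pool.Agent.H667.MT Pool.Agent.H667.LV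

universe u

/-- There are a countable structure `M` whose theory is distal and dp-minimal, and a definable
downward directed family of nonempty subsets of `M²`, such that no definable type over `M`
contains all members of the family. -/
theorem result : ∃ (L : FirstOrder.Language.{0, 0}) (M : Type) (_ : L.Structure M),
    Countable M ∧ Distal.{u} (L.completeTheory M) ∧ DpMinimal.{u} (L.completeTheory M) ∧
      ∃ F : DefFamily L M 1 2, F.Directed ∧
        ¬ ∃ p : Set (Set (Fin 2 → M)), IsType L p ∧ DefinableType L p ∧
          ∀ b ∈ F.Y, F.member b ∈ p :=
  ⟨LL, Pt, inferInstance, inferInstance, distal_pt, dp_pt, fam, fam_directed,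
    fun ⟨p, hp, hd, hX⟩ => fam_no_type p hp hd hX⟩

end Pool.Agent.Results.MP_6a1f82_lc.NotExtending
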